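import Mathlib

set_option autoImplicit false

/-!
Ergodic sets of generalized Collatz maps: finitely many sets although `T(ℤ) ≠ ℤ`.
-/

namespace Pool.Agent.Results.MP_c1c042_nt.FiniteNotSurjective

open Finset

/-- `d`, `m_0, ..., m_{d-1}`, `r_0, ..., r_{d-1}` are the data of a generalized Collatz mapping:
`d ≥ 2`, `m_i ≠ 0` and `r_i ≡ i m_i (mod d)`. -/
def IsData (d : ℕ) (m r : ℕ → ℤ) : Prop := 2 ≤ d ∧ ∀ i < d, m i ≠ 0 ∧ r i ≡ i * m i [ZMOD d]

/-- The generalized Collatz mapping `T(x) = (m_i x - r_i) / d` for `x ≡ i (mod d)`. -/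
def T (d : ℕ) (m r : ℕ → ℤ) (x : ℤ) : ℤ := (m (x % d).toNat * x - r (x % d).toNat) / d

/-- Relatively prime type: `gcd(m_0 ⋯ m_{d-1}, d) = 1`. -/
def RelPrimeType (d : ℕ) (m : ℕ → ℤ) : Prop := Int.gcd (∏ i ∈ range d, m i) d = 1

/-- The residue class `B(j, M)`. -/
def B (j : ℤ) (M : ℕ) : Set ℤ := {x | x ≡ j [ZMOD M]}

/-- The measure `k / N` of a set which is a disjoint union of `k` classes modulo `N`. -/
noncomputable def mu (N : ℕ) (S : Set ℤ) : ℚ := ({x : ℤ | 0 ≤ x ∧ x < N ∧ x ∈ S}.ncard : ℚ) / N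

/-- The transition probability `q_{ij}(M) = μ(B(i,M) ∩ T⁻¹ B(j,M)) / μ(B(i,M))`; both sets are
unions of classes modulo `M d` (see `inter_periodic`). -/
noncomputable def q (d : ℕ) (m r : ℕ → ℤ) (M i j : ℕ) : ℚ :=
  mu (M * d) (B i M ∩ T d m r ⁻¹' B j M) / mu (M * d) (B i M)

/-- One step with positive probability between states in `{0, ..., M - 1}`. -/
def Step (d : ℕ) (m r : ℕ → ℤ) (M i j : ℕ) : Prop := i < M ∧ j < M ∧ 0 < q d m r M i j

/-- `C` is a positive recurrent class of the chain `Q_T(M)`, that is, since the chain is finite, a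
closed communicating class. -/
def IsClass (d : ℕ) (m r : ℕ → ℤ) (M : ℕ) (C : Set ℕ) : Prop :=
  C.Nonempty ∧ (∀ i ∈ C, i < M) ∧ (∀ i ∈ C, ∀ j, Step d m r M i j → j ∈ C) ∧
    ∀ i ∈ C, ∀ j ∈ C, Relation.ReflTransGen (Step d m r M) i j

/-- The union of the residue classes belonging to `C`. -/
def union (M : ℕ) (C : Set ℕ) : Set ℤ := {x | ∃ j ∈ C, x ∈ B j M}

/-- The collection of the sets `S_C`, `C` a positive recurrent class of `Q_T(M)`, `M ≥ 2`. -/
def Ergodic (d : ℕ) (m r : ℕ → ℤ) : Set (Set ℤ) :=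
  {S | ∃ M : ℕ, 2 ≤ M ∧ ∃ C : Set ℕ, IsClass d m r M C ∧ S = union M C}

/-! ### generalities -/

section General

variable {d : ℕ} {m r : ℕ → ℤ}

theorem T_mul (h : IsData d m r) (x : ℤ) :
    (d : ℤ) * T d m r x = m (x % d).toNat * x - r (x % d).toNat := by
  obtain ⟨hd, h⟩ := h
  have hd0 : (0 : ℤ) < d := by exact_mod_cast (by omega : 0 < d)
  have h1 := Int.emod_nonneg x hd0.ne'
  have h2 := Int.emod_lt_of_pos x hd0
  have h3 := (h (x % d).toNat (by omega)).2
  rw [Int.toNat_of_nonneg h1] at h3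
  unfold T
  apply Int.mul_ediv_cancel'
  have h4 : (x % d) * m (x % d).toNat ≡ x * m (x % d).toNat [ZMOD d] :=
    (Int.mod_modEq x d).mul_right _
  have h5 := (h3.trans h4).dvd
  convert h5 using 1
  ring

theorem T_add (h : IsData d m r) (x y : ℤ) :
    T d m r (x + d * y) = T d m r x + m (x % d).toNat * y := by
  have hd : (d : ℤ) ≠ 0 := by
    have := h.1
    exact_mod_cast (by omega : d ≠ 0)
  apply mul_left_cancel₀ hd
  have h1 := T_mul h (x + d * y)
  have h2 := T_mul h x
  rw [Int.add_mul_emod_self_left] at h1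
  linear_combination h1 - h2

/-- the sets in the definition of `q` are unions of classes modulo `M d` -/
theorem inter_periodic (h : IsData d m r) (M : ℕ) (i j x y : ℤ) (hx : x ∈ B i M ∩ T d m r ⁻¹' B j M) :
    x + (M * d : ℕ) * y ∈ B i M ∩ T d m r ⁻¹' B j M := by
  have e : x + ((M * d : ℕ) : ℤ) * y = x + d * (M * y) := by push_cast; ring
  refine ⟨?_, ?_⟩
  · have h1 : x + ((M * d : ℕ) : ℤ) * y ≡ x [ZMOD M] := by
      have e2 : x + ((M * d : ℕ) : ℤ) * y = x + M * (d * y) := by push_cast; ring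
      rw [e2]
      exact Int.modEq_iff_add_fac.2 ⟨-(d * y), by ring⟩
    exact h1.trans hx.1
  · have h1 : T d m r (x + ((M * d : ℕ) : ℤ) * y) ≡ T d m r x [ZMOD M] := by
      rw [e, T_add h]
      exact Int.modEq_iff_add_fac.2 ⟨-(m (x % d).toNat * y), by ring⟩
    exact h1.trans hx.2

theorem mu_pos {N : ℕ} (hN : 0 < N) {S : Set ℤ} (hS : ∀ x ∈ S, ∀ y : ℤ, x + N * y ∈ S) {x : ℤ}
    (hx : x ∈ S) : 0 < mu N S := by
  have hNz : (0 : ℤ) < N := by exact_mod_cast hN
  have hfin : {x : ℤ | 0 ≤ x ∧ x < N ∧ x ∈ S}.Finite :=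
    (Set.finite_Ico (0 : ℤ) N).subset fun x hx => ⟨hx.1, hx.2.1⟩
  have hne : {x : ℤ | 0 ≤ x ∧ x < N ∧ x ∈ S}.Nonempty := by
    refine ⟨x % N, Int.emod_nonneg _ hNz.ne', Int.emod_lt_of_pos _ hNz, ?_⟩
    have h1 := hS x hx (-(x / N))
    have e : x + N * -(x / N) = x % N := by
      have := Int.emod_add_mul_ediv x N
      linarith
    rwa [e] at h1
  have h2 : 0 < {x : ℤ | 0 ≤ x ∧ x < N ∧ x ∈ S}.ncard := (Set.ncard_pos hfin).2 hne
  unfold mu
  have h3 : (0 : ℚ) < ({x : ℤ | 0 ≤ x ∧ x < N ∧ x ∈ S}.ncard : ℚ) := by exact_mod_cast h2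
  have h4 : (0 : ℚ) < N := by exact_mod_cast hN
  positivity

theorem exists_of_mu {N : ℕ} {S : Set ℤ} (h : mu N S ≠ 0) : ∃ x, x ∈ S := by
  by_contra hcon
  push Not at hcon
  apply h
  unfold mu
  have e : {x : ℤ | 0 ≤ x ∧ x < N ∧ x ∈ S} = ∅ := by
    ext x
    simp only [Set.mem_ofPred_eq, Set.mem_empty_iff_false, iff_false, not_and]
    intro _ _
    exact hcon x
  rw [e]
  simp

theorem q_pos (h : IsData d m r) {M : ℕ} (hM : 0 < M) {i j : ℕ} {x : ℤ} (hx : x ≡ i [ZMOD M])
    (hT : T d m r x ≡ j [ZMOD M]) : 0 < q d m r M i j := by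
  have hN : 0 < M * d := Nat.mul_pos hM (by have := h.1; omega)
  unfold q
  apply div_pos
  · exact mu_pos hN (fun x hx y => inter_periodic h M i j x y hx) (x := x) ⟨hx, hT⟩
  · refine mu_pos hN (fun x hx y => ?_) (x := x) hx
    have h1 : x + ((M * d : ℕ) : ℤ) * y ≡ x [ZMOD M] := by
      have e2 : x + ((M * d : ℕ) : ℤ) * y = x + M * (d * y) := by push_cast; ring
      rw [e2]
      exact Int.modEq_iff_add_fac.2 ⟨-(d * y), by ring⟩
    exact h1.trans hx

theorem of_q_pos {M i j : ℕ} (h : 0 < q d m r M i j) :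
    ∃ x : ℤ, x ≡ i [ZMOD M] ∧ T d m r x ≡ j [ZMOD M] := by
  have h1 : mu (M * d) (B i M ∩ T d m r ⁻¹' B j M) ≠ 0 := by
    intro h0
    unfold q at h
    rw [h0, zero_div] at h
    exact lt_irrefl _ h
  obtain ⟨x, hx⟩ := exists_of_mu h1
  exact ⟨x, hx.1, hx.2⟩

/-- the union of the classes in `C` is closed under `T` -/
theorem closed_union (h : IsData d m r) {M : ℕ} (hM : 0 < M) {C : Set ℕ} (hC : IsClass d m r M C)
    {x : ℤ} (hx : x ∈ union M C) : T d m r x ∈ union M C := by
  obtain ⟨i, hi, hxi⟩ := hx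
  have hMz : (0 : ℤ) < M := by exact_mod_cast hM
  have h1 := Int.emod_nonneg (T d m r x) hMz.ne'
  have h2 := Int.emod_lt_of_pos (T d m r x) hMz
  have h3 : T d m r x ≡ (T d m r x % M).toNat [ZMOD M] := by
    rw [Int.toNat_of_nonneg h1]
    exact (Int.mod_modEq _ _).symm
  refine ⟨(T d m r x % M).toNat, ?_, h3⟩
  exact hC.2.2.1 i hi _ ⟨hC.2.1 i hi, by omega, q_pos h hM hxi h3⟩

theorem union_periodic {M : ℕ} {C : Set ℕ} {x y : ℤ} (hx : x ∈ union M C) (h : y ≡ x [ZMOD M]) :
    y ∈ union M C := by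
  obtain ⟨i, hi, hxi⟩ := hx
  exact ⟨i, hi, h.trans hxi⟩

end General

/-! ### the combinatorial lemma -/

/-- `P n = ⌈3 n / 2⌉` -/
def P (n : ℤ) : ℤ := (3 * n + 1) / 2

theorem P_add (n k : ℤ) : P (n + 2 * k) = P n + 3 * k := by
  unfold P; omega


/-- a nonempty set of integers, periodic modulo `2 ^ e * w` with `w` prime to `6`, which is mapped
into itself by `P`, contains all the integers -/
theorem eq_univ (e : ℕ) : ∀ (w : ℕ), ¬ 2 ∣ w → ¬ 3 ∣ w → ∀ (K : Set ℤ),
    (∀ x ∈ K, ∀ t : ℤ, x + ((2 ^ e * w : ℕ) : ℤ) * t ∈ K) → (∀ x ∈ K, P x ∈ K) → K.Nonempty →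
    ∀ x : ℤ, x ∈ K := by
  induction e with
  | zero =>
    intro w hw hw3 K hper hP hne
    rw [pow_zero, one_mul] at hper
    obtain ⟨v, hv⟩ : ∃ v : ℤ, (w : ℤ) = 2 * v + 1 := ⟨(w : ℤ) / 2, by omega⟩
    have hwpos : 0 < w := by omega
    -- closed under `g₀` and `g₁`
    have hstep : ∀ x ∈ K, ∀ y : ℤ, ((w : ℤ) ∣ 2 * y - 3 * x ∨ (w : ℤ) ∣ 2 * y - (3 * x + 1)) →
        y ∈ K := by
      intro x hx y hy
      have key : ∀ z : ℤ, z ∈ K → ∀ y : ℤ, (w : ℤ) ∣ 2 * y - 2 * P z → y ∈ K := by
        intro z hz y hy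
        have hcop : IsCoprime (w : ℤ) 2 := ⟨1, -v, by rw [hv]; ring⟩
        have h1 : (w : ℤ) ∣ y - P z := by
          apply hcop.dvd_of_dvd_mul_left
          rwa [mul_sub]
        obtain ⟨t, ht⟩ := h1
        have e1 : y = P z + w * t := by linarith
        rw [e1]
        exact hper _ (hP z hz) t
      rcases Int.emod_two_eq_zero_or_one x with hx2 | hx2
      · rcases hy with hy | hy
        · apply key x hx y
          have : 2 * P x = 3 * x := by unfold P; omega
          rwa [this]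
        · apply key (x + w * 1) (hper x hx 1) y
          have : 2 * P (x + w * 1) = 3 * x + 1 + w * 3 := by unfold P; omega
          rw [this]
          obtain ⟨t, ht⟩ := hy
          exact ⟨t - 3, by linear_combination ht⟩
      · rcases hy with hy | hy
        · apply key (x + w * 1) (hper x hx 1) y
          have : 2 * P (x + w * 1) = 3 * x + w * 3 := by unfold P; omega
          rw [this]
          obtain ⟨t, ht⟩ := hy
          exact ⟨t - 3, by linear_combination ht⟩
        · apply key x hx y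
          have : 2 * P x = 3 * x + 1 := by unfold P; omega
          rwa [this]
    -- multiplication by `3 / 2`
    set h : ℤ := v + 1 with hh
    have h2 : 2 * h = w + 1 := by rw [hh, hv]; ring
    have hpow : ∀ n : ℕ, ∀ x ∈ K, (3 * h) ^ n * x ∈ K := by
      intro n
      induction n with
      | zero => intro x hx; simpa using hx
      | succ n ih =>
        intro x hx
        apply hstep _ (ih x hx)
        left
        refine ⟨3 * ((3 * h) ^ n * x), ?_⟩
        rw [pow_succ]
        linear_combination (3 * ((3 * h) ^ n * x)) * h2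
    have hcop : IsCoprime (3 * h) (w : ℤ) := by
      apply IsCoprime.mul_left
      · have h3 : ¬ (3 : ℤ) ∣ w := by
          intro h; apply hw3; exact_mod_cast h
        exact (Int.prime_three.coprime_iff_not_dvd).2 h3
      · exact ⟨2, -1, by linear_combination h2⟩
    have hfer : (w : ℤ) ∣ (3 * h) ^ Nat.totient w - 1 := by
      have e0 : ((3 * h).toNat : ℤ) = 3 * h := Int.toNat_of_nonneg (by omega)
      have hc : Nat.Coprime (3 * h).toNat w := by
        rw [← Nat.isCoprime_iff_coprime, e0]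
        exact hcop
      have h3 := (Nat.ModEq.pow_totient hc).symm
      rw [← Int.natCast_modEq_iff] at h3
      have h4 := h3.dvd
      push_cast [e0] at h4
      exact h4
    have htot : 0 < Nat.totient w := Nat.totient_pos.2 hwpos
    have hadd : ∀ x ∈ K, x + h ∈ K := by
      intro x hx
      apply hstep _ (hpow (Nat.totient w - 1) x hx)
      right
      obtain ⟨t, ht⟩ := hfer
      have e1 : (3 * h) ^ Nat.totient w = (3 * h) ^ (Nat.totient w - 1) * (3 * h) := by
        rw [← pow_succ, Nat.sub_add_cancel htot]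
      rw [e1] at ht
      refine ⟨1 - 2 * t * x + 3 * (3 * h) ^ (Nat.totient w - 1) * x, ?_⟩
      linear_combination (1 + 3 * (3 * h) ^ (Nat.totient w - 1) * x) * h2 - 2 * x * ht
    have hadd' : ∀ n : ℕ, ∀ x ∈ K, x + n * h ∈ K := by
      intro n
      induction n with
      | zero => intro x hx; simpa using hx
      | succ n ih =>
        intro x hx
        have := hadd _ (ih x hx)
        have e1 : x + ((n + 1 : ℕ) : ℤ) * h = x + n * h + h := by push_cast; ring
        rwa [e1]
    obtain ⟨x, hx⟩ := hne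
    intro z
    have hwz : (0 : ℤ) < w := by exact_mod_cast hwpos
    have h5 := hadd' ((2 * (z - x)) % w).toNat x hx
    rw [Int.toNat_of_nonneg (Int.emod_nonneg _ hwz.ne')] at h5
    have h6 := Int.emod_add_mul_ediv (2 * (z - x)) w
    set k := (2 * (z - x)) % (w : ℤ)
    set k' := (2 * (z - x)) / (w : ℤ)
    have h7 := hper _ h5 (-(z - x) + k' * h)
    convert h7 using 1
    linear_combination -h * h6 - (z - x) * h2
  | succ e ih =>
    intro w hw hw3 K hper hP hne
    have hstep : ∀ x ∈ K, ∀ t : ℤ, P x + ((2 ^ e * w : ℕ) : ℤ) * t ∈ K := by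
      intro x hx t
      have h1 := hP _ (hper x hx t)
      have e1 : x + ((2 ^ (e + 1) * w : ℕ) : ℤ) * t = x + 2 * (((2 ^ e * w : ℕ) : ℤ) * t) := by
        push_cast; ring
      rw [e1, P_add] at h1
      have h2 := hper _ h1 (-t)
      convert h2 using 1
      push_cast
      ring
    have h1 := ih w hw hw3 {x | ∀ t : ℤ, x + ((2 ^ e * w : ℕ) : ℤ) * t ∈ K}
      (by
        intro x hx t s
        have := hx (t + s)
        convert this using 1
        ring)
      (by
        intro x hx t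
        have := hx 0
        rw [mul_zero, add_zero] at this
        exact hstep x this t)
      (by
        obtain ⟨x, hx⟩ := hne
        exact ⟨P x, fun t => hstep x hx t⟩)
    intro x
    have := h1 x 0
    rwa [mul_zero, add_zero] at this

/-! ### the counterexample -/

/-- the multipliers `2, 2, A` -/
def mm (A : ℤ) : ℕ → ℤ := fun i => if i = 2 then A else 2

/-- the numbers `0, 2, ρ` -/
def rr (ρ : ℤ) : ℕ → ℤ := fun i => if i = 0 then 0 else if i = 1 then 2 else ρ

section Counter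

variable {A ρ : ℤ}

theorem isData (hA3 : ¬ 3 ∣ A) (h : ρ ≡ 2 * A [ZMOD 3]) : IsData 3 (mm A) (rr ρ) := by
  refine ⟨by norm_num, ?_⟩
  intro i hi
  interval_cases i
  · simp [mm, rr]
  · simp [mm, rr]
  · refine ⟨?_, ?_⟩
    · simp only [mm, if_true]
      rintro rfl
      exact hA3 (dvd_zero _)
    · simpa [mm, rr] using h

theorem T_zero (y : ℤ) : T 3 (mm A) (rr ρ) (3 * y) = 2 * y := by
  have h : ((3 * y) % ((3 : ℕ) : ℤ)).toNat = 0 := by omega
  unfold T
  rw [h]
  simp only [mm, rr]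
  norm_num
  omega

theorem T_one (y : ℤ) : T 3 (mm A) (rr ρ) (3 * y + 1) = 2 * y := by
  have h : ((3 * y + 1) % ((3 : ℕ) : ℤ)).toNat = 1 := by omega
  unfold T
  rw [h]
  simp only [mm, rr]
  norm_num
  omega

theorem T_even (hA : Even A) (hA3 : ¬ 3 ∣ A) (hρ : Even ρ) (h : ρ ≡ 2 * A [ZMOD 3]) (x : ℤ) :
    Even (T 3 (mm A) (rr ρ) x) := by
  have h1 := T_mul (isData hA3 h) x
  have h2 : Even (mm A (x % (3 : ℕ)).toNat) := by
    unfold mm; split_ifs
    · exact hA
    · exact even_two
  have h3 : Even (rr ρ (x % (3 : ℕ)).toNat) := by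
    unfold rr; split_ifs
    · exact Even.zero
    · exact even_two
    · exact hρ
  have h4 : Even (((3 : ℕ) : ℤ) * T 3 (mm A) (rr ρ) x) := by
    rw [h1]
    exact (h2.mul_right _).sub h3
  rcases Int.even_mul.1 h4 with h5 | h5
  · exfalso; revert h5; decide
  · exact h5

theorem iterate_add (hA3 : ¬ 3 ∣ A) (h : ρ ≡ 2 * A [ZMOD 3]) (a : ℕ) : ∀ s : ℤ,
    ∃ c : ℤ, ¬ 3 ∣ c ∧ ∀ z : ℤ, (T 3 (mm A) (rr ρ))^[a] (s + 3 ^ a * z)
      = (T 3 (mm A) (rr ρ))^[a] s + c * z := by
  induction a with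
  | zero =>
    intro s
    exact ⟨1, by decide, fun z => by simp⟩
  | succ a ih =>
    intro s
    obtain ⟨c, hc, hcz⟩ := ih (T 3 (mm A) (rr ρ) s)
    refine ⟨c * mm A (s % (3 : ℕ)).toNat, ?_, ?_⟩
    · intro h3
      rcases Int.prime_three.dvd_or_dvd h3 with h4 | h4
      · exact hc h4
      · revert h4
        unfold mm; split_ifs
        · exact hA3
        · decide
    · intro z
      rw [Function.iterate_succ_apply, Function.iterate_succ_apply]
      have e1 : s + 3 ^ (a + 1) * z = s + ((3 : ℕ) : ℤ) * (3 ^ a * z) := by push_cast; ring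
      rw [e1, T_add (isData hA3 h)]
      have e2 : T 3 (mm A) (rr ρ) s + mm A (s % (3 : ℕ)).toNat * (3 ^ a * z)
          = T 3 (mm A) (rr ρ) s + 3 ^ a * (mm A (s % (3 : ℕ)).toNat * z) := by ring
      rw [e2, hcz]
      ring

/-- a nonempty set, periodic modulo `M` and closed under the map contains the even integers -/
theorem even_mem (hA3 : ¬ 3 ∣ A) (h : ρ ≡ 2 * A [ZMOD 3]) {M : ℕ} (hM : 0 < M) {S : Set ℤ}
    (hper : ∀ x ∈ S, ∀ t : ℤ, x + M * t ∈ S) (hT : ∀ x ∈ S, T 3 (mm A) (rr ρ) x ∈ S)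
    (hne : S.Nonempty) (n : ℤ) : 2 * n ∈ S := by
  obtain ⟨a, u, hu3, hMu⟩ := Nat.exists_eq_pow_mul_and_not_dvd hM.ne' 3 (by norm_num)
  have hu : 0 < u := Nat.pos_of_ne_zero fun h => hu3 (h ▸ dvd_zero _)
  have hMz : (M : ℤ) = 3 ^ a * u := by rw [hMu]; push_cast; ring
  have hu3z : ¬ (3 : ℤ) ∣ u := fun h => hu3 (by exact_mod_cast h)
  have hodd : ∃ b : ℤ, (3 : ℤ) ^ a = 2 * b + 1 := by
    have : Odd ((3 : ℤ) ^ a) := Odd.pow (by decide)
    exact this
  have hTa : ∀ a : ℕ, ∀ x ∈ S, (T 3 (mm A) (rr ρ))^[a] x ∈ S := by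
    intro a
    induction a with
    | zero => intro x hx; exact hx
    | succ a ih =>
      intro x hx
      rw [Function.iterate_succ_apply]
      exact ih _ (hT x hx)
  set S' : Set ℤ := {z | ∀ t : ℤ, z + u * t ∈ S} with hS'
  have hper' : ∀ z ∈ S', ∀ t : ℤ, z + u * t ∈ S' := by
    intro z hz t s
    have := hz (t + s)
    convert this using 1
    ring
  have hne' : S'.Nonempty := by
    obtain ⟨s, hs⟩ := hne
    obtain ⟨c, hc, hcz⟩ := iterate_add hA3 h a s
    refine ⟨(T 3 (mm A) (rr ρ))^[a] s, ?_⟩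
    intro t
    have hcop : IsCoprime c (3 ^ a) :=
      ((Int.prime_three.coprime_iff_not_dvd).2 hc).symm.pow_right
    obtain ⟨p, q, hpq⟩ := hcop
    have h1 := hTa a _ (hper s hs (p * t))
    have e1 : s + (M : ℤ) * (p * t) = s + 3 ^ a * (u * (p * t)) := by rw [hMz]; ring
    rw [e1, hcz] at h1
    have h2 := hper _ h1 (q * t)
    convert h2 using 1
    rw [hMz]
    linear_combination (-(u : ℤ) * t) * hpq
  -- the two closure properties
  have hclos : ∀ z ∈ S', ∀ ε : ℤ, (∀ y : ℤ, T 3 (mm A) (rr ρ) (3 * y + ε) = 2 * y) →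
      ∀ w : ℤ, (u : ℤ) ∣ 3 * w - (2 * z - 2 * ε) → w ∈ S' := by
    intro z hz ε hε w hw t
    -- an even number
    have key : ∀ w : ℤ, Even w → (u : ℤ) ∣ 3 * w - (2 * z - 2 * ε) → w ∈ S := by
      rintro w ⟨y, hy⟩ ⟨k, hk⟩
      have e1 : w = 2 * y := by rw [hy]; ring
      rcases Int.even_or_odd' k with ⟨l, hl | hl⟩
      · have h1 := hT _ (hz l)
        have e2 : z + u * l = 3 * y + ε := by
          rw [e1, hl] at hk; linarith
        rw [e2, hε] at h1
        rwa [e1]
      · rcases Int.even_or_odd' (u : ℤ) with ⟨v, hv | hv⟩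
        · obtain ⟨b, hb⟩ := hodd
          -- replace `y` by `y + M / 2`, `M / 2 = 3 ^ a * v`
          have h1 := hT _ (hz (l + 3 * b + 2))
          have e2 : z + u * (l + 3 * b + 2) = 3 * (y + 3 ^ a * v) + ε := by
            have : 2 * (z + u * (l + 3 * b + 2)) = 2 * (3 * (y + 3 ^ a * v) + ε) := by
              rw [hb]
              rw [e1, hl] at hk
              rw [hv] at hk ⊢
              linear_combination -hk
            linarith
          rw [e2, hε] at h1
          have h2 := hper _ h1 (-1)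
          convert h2 using 1
          rw [e1, hMz, hv]
          ring
        · exfalso
          rw [e1, hl, hv] at hk
          have : (2 * v + 1) * (2 * l + 1) = 2 * (2 * v * l + v + l) + 1 := by ring
          omega
    rcases Int.even_or_odd (w + u * t) with h1 | h1
    · apply key _ h1
      obtain ⟨k, hk⟩ := hw
      exact ⟨k + 3 * t, by linear_combination hk⟩
    · -- then `u` is odd
      have huodd : Odd (u : ℤ) := by
        by_contra hcon
        rw [Int.not_odd_iff_even] at hcon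
        obtain ⟨k, hk⟩ := hw
        obtain ⟨v, hv⟩ := hcon
        obtain ⟨l, hl⟩ := h1
        have e3 : 3 * (w + u * t) = 2 * (z - ε + v * k + 3 * v * t) := by
          rw [hv] at hk ⊢
          linear_combination hk
        omega
      have hModd : Odd (M : ℤ) := by
        rw [hMz]
        exact (Odd.pow (by decide)).mul huodd
      have h2 : w + u * t + M ∈ S := by
        apply key _ (h1.add_odd hModd)
        obtain ⟨k, hk⟩ := hw
        exact ⟨k + 3 * t + 3 * 3 ^ a, by rw [hMz]; linear_combination hk⟩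
      have h3 := hper _ h2 (-1)
      convert h3 using 1
      ring
  have h0 : ∀ y : ℤ, T 3 (mm A) (rr ρ) (3 * y + 0) = 2 * y := by
    intro y; rw [add_zero, T_zero]
  -- an even element of `S'`
  obtain ⟨n₀, hn₀⟩ : ∃ n : ℤ, 2 * n ∈ S' := by
    obtain ⟨z, hz⟩ := hne'
    obtain ⟨p, q, hpq⟩ := (Int.prime_three.coprime_iff_not_dvd).2 hu3z
    have h1 : 2 * z * p ∈ S' := by
      apply hclos z hz 0 h0
      exact ⟨-(2 * z * q), by linear_combination (2 * z) * hpq⟩
    exact ⟨z * p, by rw [← mul_assoc]; exact h1⟩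
  -- the complement
  by_contra hn
  obtain ⟨e, w, hw2, huw⟩ := Nat.exists_eq_pow_mul_and_not_dvd hu.ne' 2 (by norm_num)
  have hw3 : ¬ 3 ∣ w := fun h => hu3 (huw ▸ h.mul_left _)
  have hall := eq_univ e w hw2 hw3 {n | 2 * n ∉ S'}
    (by
      intro x hx t hcon
      apply hx
      have := hper' _ hcon (-(2 * t))
      rw [huw] at this
      convert this using 1
      ring)
    (by
      intro x hx hcon
      apply hx
      rcases Int.even_or_odd' x with ⟨k, hk | hk⟩
      · apply hclos _ hcon 0 h0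
        have : P x = 3 * k := by unfold P; omega
        rw [this, hk]
        exact ⟨0, by ring⟩
      · apply hclos _ hcon 1 T_one
        have : P x = 3 * k + 2 := by unfold P; omega
        rw [this, hk]
        exact ⟨0, by ring⟩)
    ⟨n, fun hcon => hn (by simpa using hcon 0)⟩
  exact hall n₀ hn₀

end Counter

/-- **Main theorem.**  The equivalence `𝓔(T)` finite if and only if `T(ℤ) = ℤ` fails: for every
even `A` prime to `3` and every even `ρ ≡ 2 A (mod 3)` the mapping `T` with `d = 3`,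
`m = (2, 2, A)`, `r = (0, 2, ρ)` is a generalized Collatz mapping of relatively prime type, its
values are all even, but `𝓔(T)` contains no sets other than `ℤ` and `2 ℤ`. -/
theorem result :
    (¬ ∀ (d : ℕ) (m r : ℕ → ℤ), IsData d m r → RelPrimeType d m →
      ((Ergodic d m r).Finite ↔ Set.range (T d m r) = Set.univ)) ∧
    ∀ A ρ : ℤ, Even A → ¬ 3 ∣ A → Even ρ → ρ ≡ 2 * A [ZMOD 3] →
      IsData 3 (mm A) (rr ρ) ∧ RelPrimeType 3 (mm A) ∧
      (∀ x, Even (T 3 (mm A) (rr ρ) x)) ∧ Set.range (T 3 (mm A) (rr ρ)) ≠ Set.univ ∧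
      Ergodic 3 (mm A) (rr ρ) ⊆ {Set.univ, {x | Even x}} ∧ (Ergodic 3 (mm A) (rr ρ)).Finite := by
  have main : ∀ A ρ : ℤ, Even A → ¬ 3 ∣ A → Even ρ → ρ ≡ 2 * A [ZMOD 3] →
      IsData 3 (mm A) (rr ρ) ∧ RelPrimeType 3 (mm A) ∧
      (∀ x, Even (T 3 (mm A) (rr ρ) x)) ∧ Set.range (T 3 (mm A) (rr ρ)) ≠ Set.univ ∧
      Ergodic 3 (mm A) (rr ρ) ⊆ {Set.univ, {x | Even x}} ∧
      (Ergodic 3 (mm A) (rr ρ)).Finite := by
    intro A ρ hA hA3 hρ h
    have hev : ∀ x, Even (T 3 (mm A) (rr ρ) x) := T_even hA hA3 hρ h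
    have hsub : Ergodic 3 (mm A) (rr ρ) ⊆ {Set.univ, {x | Even x}} := by
      rintro S ⟨M, hM, C, hC, rfl⟩
      have hM0 : 0 < M := by omega
      have hper : ∀ x ∈ union M C, ∀ t : ℤ, x + M * t ∈ union M C := by
        intro x hx t
        apply union_periodic hx
        exact Int.modEq_iff_add_fac.2 ⟨-t, by ring⟩
      have hne : (union M C).Nonempty := by
        obtain ⟨j, hj⟩ := hC.1
        exact ⟨j, j, hj, Int.ModEq.refl _⟩
      have hmem : ∀ n : ℤ, 2 * n ∈ union M C :=
        even_mem hA3 h hM0 hper (fun x hx => closed_union (isData hA3 h) hM0 hC hx) hne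
      rcases Nat.even_or_odd M with hMe | hMo
      · right
        ext x
        constructor
        · intro hx
          change Even x
          by_contra hodd
          rw [Int.not_even_iff_odd] at hodd
          obtain ⟨j, hj, hxj⟩ := hx
          obtain ⟨i, hi, h0i⟩ := hmem 0
          have hMz : (2 : ℤ) ∣ M := by
            obtain ⟨v, hv⟩ := hMe
            exact ⟨v, by rw [hv]; push_cast; ring⟩
          have hj2 : (j : ℤ) % 2 = 1 := by
            have h1 : x ≡ j [ZMOD 2] := hxj.of_dvd hMz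
            have h2 := Int.odd_iff.1 hodd
            unfold Int.ModEq at h1
            omega
          have hi2 : (i : ℤ) % 2 = 0 := by
            have h1 : 2 * 0 ≡ (i : ℤ) [ZMOD 2] := h0i.of_dvd hMz
            unfold Int.ModEq at h1
            omega
          have hpath := hC.2.2.2 i hi j hj
          rcases Relation.ReflTransGen.cases_tail hpath with he | ⟨k, _, hk⟩
          · rw [he] at hj2
            omega
          · obtain ⟨z, _, hz⟩ := of_q_pos hk.2.2
            have h1 := hz.of_dvd hMz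
            have h2 := Int.even_iff.1 (hev z)
            unfold Int.ModEq at h1
            omega
        · intro hx
          obtain ⟨n, hn⟩ := hx
          have := hmem n
          rwa [two_mul, ← hn] at this
      · left
        rw [Set.eq_univ_iff_forall]
        intro x
        obtain ⟨v, hv⟩ := hMo
        rcases Int.even_or_odd' x with ⟨n, hn | hn⟩
        · rw [hn]; exact hmem n
        · have h1 := hper _ (hmem (n - v)) 1
          convert h1 using 1
          rw [hn, hv]
          push_cast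
          ring
    refine ⟨isData hA3 h, ?_, hev, ?_, hsub, ?_⟩
    · unfold RelPrimeType
      have h1 : ∏ i ∈ range 3, mm A i = 2 ^ 2 * A := by
        simp [Finset.prod_range_succ, mm]
      rw [h1]
      apply Int.isCoprime_iff_gcd_eq_one.1
      apply IsCoprime.mul_left
      · exact ⟨1, -1, by norm_num⟩
      · exact ((Int.prime_three.coprime_iff_not_dvd).2 hA3).symm
    · intro hcon
      have : (1 : ℤ) ∈ Set.range (T 3 (mm A) (rr ρ)) := by rw [hcon]; trivial
      obtain ⟨x, hx⟩ := this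
      have h1 := hev x
      rw [hx] at h1
      revert h1
      decide
    · exact (Set.toFinite _).subset hsub
  refine ⟨?_, main⟩
  intro hcon
  obtain ⟨h1, h2, _, h4, _, h6⟩ := main 2 4 (by decide) (by decide) (by decide) (by decide)
  exact h4 ((hcon 3 (mm 2) (rr 4) h1 h2).1 h6)

end Pool.Agent.Results.MP_c1c042_nt.FiniteNotSurjective
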